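import Pool.Agent.Helper86.TK.Defs

open Set Filter Topology

namespace Pool.Agent.Helper1.TKL

open Pool.Agent.Helper86.TK

theorem nd_len (x : ℕ → Bool) (n : ℕ) : (nd x n).length = n := by simp [nd]

theorem nd_eq (x y : ℕ → Bool) (n : ℕ) : nd x n = nd y n ↔ ∀ i < n, x i = y i := by
  unfold nd
  rw [List.map_inj_left]
  simp

theorem ind_self (y : ℕ → Bool) (n : ℕ) : ind y 0 (nd y n) = 1 := by
  unfold ind
  rw [if_pos]
  exact ⟨Nat.zero_le _, by rw [nd_len]⟩

theorem ind_ne (w y : ℕ → Bool) (h : w ≠ y) : ∀ᶠ n in atTop, ind w 0 (nd y n) = 0 := by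
  obtain ⟨k, hk⟩ := Function.ne_iff.1 h
  filter_upwards [eventually_gt_atTop k] with n hn
  unfold ind
  rw [if_neg]
  rintro ⟨-, h2⟩
  rw [nd_len, nd_eq] at h2
  exact hk (h2 k hn).symm

theorem nd_notMem (y : ℕ → Bool) (D : Finset T) : ∀ᶠ n in atTop, nd y n ∉ D := by
  filter_upwards [eventually_gt_atTop (D.sup List.length)] with n hn hm
  have h1 : (nd y n).length ≤ D.sup List.length := Finset.le_sup (f := List.length) hm
  rw [nd_len] at h1
  omega

theorem lim (hM : ST_MEM) : ST_LIM := by
  classical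
  intro Γ r η hP p hp
  constructor
  · intro z
    rw [Metric.tendsto_nhds]
    intro ε hε
    obtain ⟨c, D, h1, h2⟩ := hM Γ r η hP p hp (ε / 3) (by positivity)
    have h3 : ∀ᶠ n in atTop, ∀ w ∈ c.support, w ≠ z → ind (r w) 0 (nd (r z) n) = 0 := by
      rw [Finset.eventually_all]
      intro w _
      by_cases hw : w = z
      · filter_upwards with n h; exact absurd hw h
      · filter_upwards [ind_ne (r w) (r z) (fun h => hw (hP.1 h))] with n hn _
        exact hn
    filter_upwards [h3, nd_notMem (r z) D] with n h4 h5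
    have h6 : ∑ x ∈ c.support, c x * η x * ind (r x) 0 (nd (r z) n) = c z * η z := by
      have h7 : ∀ x ∈ c.support, c x * η x * ind (r x) 0 (nd (r z) n)
          = if x = z then c z * η z else 0 := by
        intro x hx
        by_cases hxz : x = z
        · subst hxz
          rw [if_pos rfl, ind_self, mul_one]
        · rw [if_neg hxz, h4 x hx hxz, mul_zero]
      rw [Finset.sum_congr rfl h7, Finset.sum_ite_eq']
      split_ifs with h8
      · rfl
      · rw [Finsupp.notMem_support_iff.1 h8, zero_mul]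
    have h9 := h2 _ h5
    rw [h6] at h9
    have h10 : |c z * η z - η z * p.1 z| ≤ ε / 3 := by
      have h11 : c z * η z - η z * p.1 z = -(η z * (p.1 z - c z)) := by ring
      rw [h11, abs_neg, abs_mul, abs_of_pos (hP.2 z).1]
      calc η z * |p.1 z - c z| ≤ 1 * (ε / 3) :=
            mul_le_mul (hP.2 z).2 (h1 z) (abs_nonneg _) zero_le_one
        _ = ε / 3 := one_mul _
    rw [Real.dist_eq]
    calc |p.2 (nd (r z) n) - η z * p.1 z|
        = |(p.2 (nd (r z) n) - c z * η z) + (c z * η z - η z * p.1 z)| := by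
          congr 1; ring
      _ ≤ |p.2 (nd (r z) n) - c z * η z| + |c z * η z - η z * p.1 z| := abs_add_le _ _
      _ ≤ ε / 3 + ε / 3 := add_le_add h9 h10
      _ < ε := by linarith
  · intro y hy
    rw [Metric.tendsto_nhds]
    intro ε hε
    obtain ⟨c, D, h1, h2⟩ := hM Γ r η hP p hp (ε / 2) (by positivity)
    have h3 : ∀ᶠ n in atTop, ∀ w ∈ c.support, ind (r w) 0 (nd y n) = 0 := by
      rw [Finset.eventually_all]
      intro w _
      exact ind_ne (r w) y (fun h => hy ⟨w, h⟩)
    filter_upwards [h3, nd_notMem y D] with n h4 h5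
    have h9 := h2 _ h5
    rw [Finset.sum_eq_zero (fun x hx => by rw [h4 x hx, mul_zero]), sub_zero] at h9
    rw [Real.dist_eq, sub_zero]
    linarith

end Pool.Agent.Helper1.TKL
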