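import Pool.Agent.Helper86.TK.Defs

open Set Filter Topology

namespace Pool.Agent.Helper1.TKM

open Pool.Agent.Helper86.TK

theorem single_fn {Γ : Type} [DecidableEq Γ] (p : ENNReal) (x z : Γ) (a : ℝ) :
    (lp.single (E := fun _ : Γ => ℝ) p x a) z = if z = x then a else 0 := by
  rw [lp.single_apply]
  by_cases h : z = x
  · subst h; simp
  · simp [h]

theorem mem : ST_MEM := by
  classical
  intro Γ r η hP p hp ε hε
  have h1 : p ∈ closure
      ((Submodule.span ℝ (range (U r η) ∪ range (Dl Γ)) : Submodule ℝ (Amb Γ)) :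
        Set (Amb Γ)) := hp
  obtain ⟨q, hq, hd⟩ := Metric.mem_closure_iff.1 h1 ε hε
  rw [SetLike.mem_coe, Submodule.span_union, Submodule.mem_sup] at hq
  obtain ⟨q1, hq1, q2, hq2, rfl⟩ := hq
  obtain ⟨c, rfl⟩ := (Finsupp.mem_span_range_iff_exists_finsupp).1 hq1
  obtain ⟨d, rfl⟩ := (Finsupp.mem_span_range_iff_exists_finsupp).1 hq2
  have e1 : ∀ z, ((c.sum fun i a => a • U r η i) + (d.sum fun i a => a • Dl Γ i)).1 z = c z := by
    intro z
    have h2 : ((c.sum fun i a => a • U r η i) + (d.sum fun i a => a • Dl Γ i)).1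
        = ∑ i ∈ c.support, (c i • lp.single (E := fun _ : Γ => ℝ) 2 i 1) := by
      rw [Prod.fst_add, Finsupp.sum, Finsupp.sum, Prod.fst_sum, Prod.fst_sum]
      have h3 : ∑ i ∈ d.support, (d i • Dl Γ i).1 = 0 := by
        apply Finset.sum_eq_zero
        intro i _
        rw [Prod.smul_fst]
        unfold Dl
        simp
      rw [h3, add_zero]
      rfl
    rw [h2, lp.coeFn_sum, Finset.sum_apply]
    have h4 : ∀ i ∈ c.support, (⇑(c i • lp.single (E := fun _ : Γ => ℝ) 2 i 1) : Γ → ℝ) z
        = if z = i then c i else 0 := by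
      intro i _
      rw [lp.coeFn_smul, Pi.smul_apply, single_fn]
      split_ifs <;> simp
    rw [Finset.sum_congr rfl h4, Finset.sum_ite_eq]
    split_ifs with h5
    · rfl
    · exact (Finsupp.notMem_support_iff.1 h5).symm
  have e2 : ∀ t, t ∉ d.support → ((c.sum fun i a => a • U r η i) +
      (d.sum fun i a => a • Dl Γ i)).2 t = ∑ x ∈ c.support, c x * η x * ind (r x) 0 t := by
    intro t ht
    have h2 : ((c.sum fun i a => a • U r η i) + (d.sum fun i a => a • Dl Γ i)).2
        = (∑ i ∈ c.support, (c i • (η i • indE (r i) 0))) +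
          ∑ i ∈ d.support, (d i • lp.single (E := fun _ : T => ℝ) ⊤ i 1) := by
      rw [Prod.snd_add, Finsupp.sum, Finsupp.sum, Prod.snd_sum, Prod.snd_sum]
      have h3 : ∑ i ∈ d.support, (d i • Dl Γ i).2
          = ∑ i ∈ d.support, (d i • lp.single (E := fun _ : T => ℝ) ⊤ i 1) := by
        apply Finset.sum_congr rfl
        intro i _
        rw [Prod.smul_snd]
        unfold Dl
        dsimp only
      rw [h3]
      rfl
    rw [h2, lp.coeFn_add, Pi.add_apply, lp.coeFn_sum, lp.coeFn_sum, Finset.sum_apply,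
      Finset.sum_apply]
    have h4 : ∀ i ∈ d.support, (⇑(d i • lp.single (E := fun _ : T => ℝ) ⊤ i 1) : T → ℝ) t = 0 := by
      intro i hi
      rw [lp.coeFn_smul, Pi.smul_apply, single_fn, if_neg, smul_zero]
      rintro rfl
      exact ht hi
    rw [Finset.sum_eq_zero h4, add_zero]
    apply Finset.sum_congr rfl
    intro i _
    rw [lp.coeFn_smul, Pi.smul_apply, lp.coeFn_smul, Pi.smul_apply, smul_eq_mul, smul_eq_mul,
      mul_assoc]
    rfl
  set q : Amb Γ := (c.sum fun i a => a • U r η i) + (d.sum fun i a => a • Dl Γ i) with hqd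
  have n1 : ‖p.1 - q.1‖ ≤ ε := by
    have h := norm_fst_le (p - q)
    rw [← dist_eq_norm] at h
    exact h.trans hd.le
  have n2 : ‖p.2 - q.2‖ ≤ ε := by
    have h := norm_snd_le (p - q)
    rw [← dist_eq_norm] at h
    exact h.trans hd.le
  refine ⟨c, d.support, ?_, ?_⟩
  · intro x
    rw [← e1 x]
    have h5 := (lp.norm_apply_le_norm (by norm_num) (p.1 - q.1) x).trans n1
    rw [lp.coeFn_sub, Pi.sub_apply, Real.norm_eq_abs] at h5
    exact h5
  · intro t ht
    rw [← e2 t ht]
    have h5 := (lp.norm_apply_le_norm (by simp) (p.2 - q.2) t).trans n2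
    rw [lp.coeFn_sub, Pi.sub_apply, Real.norm_eq_abs] at h5
    exact h5

end Pool.Agent.Helper1.TKM
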