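import Pool.Agent.Helper86.TK.Defs

open Set Filter Topology

namespace Pool.Agent.Helper1.TKS

open Pool.Agent.Helper86.TK

theorem weak_cont {Y : Type} [NormedAddCommGroup Y] [NormedSpace ℝ Y] (φ : Y →L[ℝ] ℝ) :
    Continuous (fun y : WeakSpace ℝ Y => φ ((toWeakSpace ℝ Y).symm y)) :=
  WeakBilin.eval_continuous (topDualPairing ℝ Y).flip φ

theorem supp (hL : ST_LIM) : ST_SUPP := by
  classical
  intro Γ r η hP K hK
  set K' : Set (WeakSpace ℝ (XX r η)) := toWeakSpace ℝ (XX r η) '' K with hK'
  have cb : ∀ t : T, Continuous (fun y : WeakSpace ℝ (XX r η) =>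
      (((toWeakSpace ℝ (XX r η)).symm y : XX r η) : Amb Γ).2 t) := fun t =>
    weak_cont ((lp.evalCLM ℝ (fun _ : T => ℝ) ⊤ t).comp
      ((ContinuousLinearMap.snd ℝ (E2 Γ) Ei).comp (XX r η).subtypeL))
  have ca : ∀ x : Γ, Continuous (fun y : WeakSpace ℝ (XX r η) =>
      (((toWeakSpace ℝ (XX r η)).symm y : XX r η) : Amb Γ).1 x) := fun x =>
    weak_cont ((lp.evalCLM ℝ (fun _ : Γ => ℝ) 2 x).comp
      ((ContinuousLinearMap.fst ℝ (E2 Γ) Ei).comp (XX r η).subtypeL))
  have : CompactSpace K' := isCompact_iff_compactSpace.1 hK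
  let Φ : K' → (T → ℝ) := fun k t => (((toWeakSpace ℝ (XX r η)).symm k.1 : XX r η) : Amb Γ).2 t
  have hΦ : Continuous Φ := continuous_pi fun t => (cb t).comp continuous_subtype_val
  have hinj : Function.Injective Φ := by
    intro k l hkl
    apply Subtype.ext
    apply (toWeakSpace ℝ (XX r η)).symm.injective
    apply Subtype.ext
    set p : XX r η := (toWeakSpace ℝ (XX r η)).symm k.1 with hp
    set q : XX r η := (toWeakSpace ℝ (XX r η)).symm l.1 with hq
    have h2 : ∀ t, (p : Amb Γ).2 t = (q : Amb Γ).2 t := fun t => congrFun hkl t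
    apply Prod.ext
    · apply lp.ext
      funext z
      have h3 := (hL Γ r η hP p p.2).1 z
      have h4 := (hL Γ r η hP q q.2).1 z
      have h5 : (fun n => (p : Amb Γ).2 (nd (r z) n)) = fun n => (q : Amb Γ).2 (nd (r z) n) :=
        funext fun n => h2 _
      rw [h5] at h3
      have h6 := tendsto_nhds_unique h3 h4
      exact mul_left_cancel₀ (hP.2 z).1.ne' h6
    · apply lp.ext
      funext t
      exact h2 t
  have hemb : Topology.IsEmbedding Φ := (hΦ.isClosedEmbedding hinj).isEmbedding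
  have : SecondCountableTopology K' := hemb.secondCountableTopology
  obtain ⟨E, hEc, hEd⟩ := TopologicalSpace.exists_countable_dense K'
  refine ⟨⋃ e ∈ E, Function.support
    (fun x => (((toWeakSpace ℝ (XX r η)).symm e.1 : XX r η) : Amb Γ).1 x), ?_, ?_⟩
  · apply hEc.biUnion
    intro e _
    have h7 := lp.memℓp (((toWeakSpace ℝ (XX r η)).symm e.1 : XX r η) : Amb Γ).1
    have h8 := (memℓp_gen_iff (by norm_num)).1 h7
    have h9 := h8.countable_support
    apply h9.mono
    intro x hx
    rw [Function.mem_support] at hx ⊢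
    have : 0 < ‖(((toWeakSpace ℝ (XX r η)).symm e.1 : XX r η) : Amb Γ).1 x‖ := norm_pos_iff.2 hx
    positivity
  · intro p hp x hx
    have h10 : ∀ k : K', (((toWeakSpace ℝ (XX r η)).symm k.1 : XX r η) : Amb Γ).1 x = 0 := by
      have hcl : IsClosed {k : K' |
          (((toWeakSpace ℝ (XX r η)).symm k.1 : XX r η) : Amb Γ).1 x = 0} :=
        isClosed_eq ((ca x).comp continuous_subtype_val) continuous_const
      have hsub : E ⊆ {k : K' |
          (((toWeakSpace ℝ (XX r η)).symm k.1 : XX r η) : Amb Γ).1 x = 0} := by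
        intro e he
        by_contra h
        exact hx (mem_biUnion he h)
      have := hcl.closure_subset_iff.2 hsub
      intro k
      exact this (hEd k)
    exact h10 ⟨toWeakSpace ℝ (XX r η) p, p, hp, rfl⟩

end Pool.Agent.Helper1.TKS
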